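import Mathlib
import Pool.Agent.Helper94.FD.D

/-!
# `∑_{k<p} C(-1/4,k)^2 / (-8)^k` modulo `p^2` for the primes `p ≡ 1 (mod 4)`

For `p = x^2 + y^2`, `x ≡ 1 (mod 4)`, the sum is `(-1)^(y/4) (2x - p/(2x))` modulo `p^2` if
`p ≡ 1 (mod 8)` and `(-1)^((y-2)/4) (2y - p/(2y))` if `p ≡ 5 (mod 8)`.

Proof, `p = 4n+1`, `m = 2n`, `c_k = C(2k,k)/4^k`: modulo `p^2` the sum is
`∑ C(n,k) C(-n-1/2,k) (-8)^(-k)`, which is exactly `2^(-n) R`, `R = ∑ c_i c_(m-i) 2^(m-i)` (both satisfy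
the same recurrence of order two in `n`).  Modulo `p^2` one has `c_(m-k) = c_m c_k (1 + (p/2) h_k)` with
harmonic numbers `h_k`; this can be used for either of the two factors `c_i`, `c_(m-i)`, and in the mean
value of the two expansions the harmonic numbers cancel by the reflection `i → m-i`.  What remains is
`2R = 2^m P_m(0) + P_m(3)` modulo `p^2`, `P_m` the Legendre polynomial; `P_m(0)` is known exactly and
`P_m(3)` modulo `p^2` is the value found for Question 1.  Finally `4^n` modulo `p^2` and the quartic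
character of `2` (by Jacobi symbols) give the stated form.
-/

set_option autoImplicit false

namespace Pool.Agent.Results.MP_fdcced_nt.QuestionTwo

open Finset

/-- the binomial coefficient `a (a-1) ⋯ (a-k+1) / k!` for rational `a` -/
def binom (a : ℚ) (k : ℕ) : ℚ := (∏ i ∈ range k, (a - i)) / k.factorial

/-- `x ≡ y (mod p^2)` for rational numbers `x`, `y` with denominators prime to `p`:
`(x - y) / p^2` has denominator prime to `p`. -/
def CongrSq (p : ℕ) (x y : ℚ) : Prop :=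
  ¬ p ∣ x.den ∧ ¬ p ∣ y.den ∧ ¬ p ∣ ((x - y) / (p : ℚ) ^ 2).den

open Pool.Agent.R439.PL

theorem congr_of_EQ {p : ℕ} [Fact p.Prime] {x y : ℚ} (h : EQ p 2 x y) : CongrSq p x y := by
  refine ⟨?_, ?_, den_of_I h.2.2⟩
  · have := den_of_I (p := p) (k := 0) (I_zero_iff.2 h.1)
    rwa [pow_zero, div_one] at this
  · have := den_of_I (p := p) (k := 0) (I_zero_iff.2 h.2.1)
    rwa [pow_zero, div_one] at this

/-- **Question 2.**  Let `p ≡ 1 (mod 4)` be a prime.  Then `p = x^2 + y^2` with `x ≡ 1 (mod 4)`, and for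
all such integers `x`, `y`: if `p ≡ 1 (mod 8)` then `4 ∣ y` and
`∑_{k<p} C(-1/4,k)^2 / (-8)^k ≡ (-1)^(y/4) (2x - p/(2x)) (mod p^2)`; if `p ≡ 5 (mod 8)` then
`4 ∣ y - 2` and the sum is `≡ (-1)^((y-2)/4) (2y - p/(2y)) (mod p^2)`. -/
theorem result (p : ℕ) (hp : p.Prime) (h4 : p % 4 = 1) :
    (∃ x y : ℤ, (p : ℤ) = x ^ 2 + y ^ 2 ∧ x % 4 = 1) ∧
    ∀ x y : ℤ, (p : ℤ) = x ^ 2 + y ^ 2 → x % 4 = 1 →
      (p % 8 = 1 → 4 ∣ y ∧ CongrSq p (∑ k ∈ range p, binom (-1 / 4) k ^ 2 / (-8) ^ k)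
        ((-1 : ℚ) ^ (y / 4) * (2 * (x : ℚ) - p / (2 * x)))) ∧
      (p % 8 = 5 → 4 ∣ y - 2 ∧ CongrSq p (∑ k ∈ range p, binom (-1 / 4) k ^ 2 / (-8) ^ k)
        ((-1 : ℚ) ^ ((y - 2) / 4) * (2 * (y : ℚ) - p / (2 * y)))) := by
  have : Fact p.Prime := ⟨hp⟩
  obtain ⟨n, hn⟩ : ∃ n, p = 4 * n + 1 := ⟨p / 4, by omega⟩
  have hS : ∑ k ∈ range p, binom (-1 / 4) k ^ 2 / (-8) ^ k = Pool.Agent.Helper94.FDB.SQ2 p := by
    rw [Pool.Agent.Helper94.FDB.SQ2]
    refine sum_congr rfl fun k _ => ?_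
    have h : binom (-1 / 4) k = Pool.Agent.R488.Cub.gb (-1 / 4) k := rfl
    have e : (-1 / 8 : ℚ) ^ k = 1 / (-8) ^ k := by
      rw [← one_div_pow]; norm_num
    rw [h, e, mul_one_div]
  constructor
  · obtain ⟨a, b, h1, h2, -⟩ := Pool.Agent.R439.FD.jac p n hn
    exact ⟨-a, b, by rw [h1]; ring, by omega⟩
  · intro x y h1 h2
    obtain ⟨a, ha⟩ : ∃ a, x = 4 * a + 1 := ⟨x / 4, by omega⟩
    have hx2 : x ^ 2 = 16 * a ^ 2 + 8 * a + 1 := by rw [ha]; ring
    have hy : y % 8 = 0 ∨ y % 8 = 1 ∨ y % 8 = 2 ∨ y % 8 = 3 ∨ y % 8 = 4 ∨ y % 8 = 5 ∨ y % 8 = 6 ∨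
      y % 8 = 7 := by omega
    have hy2 : y ^ 2 % 8 = ((y % 8) * (y % 8)) % 8 := by rw [pow_two, Int.mul_emod]
    constructor
    · intro h8
      refine ⟨?_, ?_⟩
      · have h3 : y ^ 2 % 8 = 0 := by
          have : (p : ℤ) % 8 = 1 := by exact_mod_cast h8
          omega
        rw [hy2] at h3
        rcases hy with h | h | h | h | h | h | h | h <;> rw [h] at h3 <;> omega
      · rw [hS]
        exact congr_of_EQ (Pool.Agent.Helper94.FDD.final_even (l := p / 8) (by omega) h1 h2)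
    · intro h8
      refine ⟨?_, ?_⟩
      · have h3 : y ^ 2 % 8 = 4 := by
          have : (p : ℤ) % 8 = 5 := by exact_mod_cast h8
          omega
        rw [hy2] at h3
        rcases hy with h | h | h | h | h | h | h | h <;> rw [h] at h3 <;> omega
      · rw [hS]
        exact congr_of_EQ (Pool.Agent.Helper94.FDD.final_odd (l := p / 8) (by omega) h1 h2)

end Pool.Agent.Results.MP_fdcced_nt.QuestionTwo
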